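import Pool.Agent.SGD.Stmts
import Pool.Agent.Helper56_SGP.CTR

/-!
# Squad SGD, row CLO
-/

noncomputable section

namespace Pool.Agent.SGD.H59

open Pool.Agent.SGE Pool.Agent.SGP Pool.Agent.SGY Pool.Agent.SGD

/-- two chains with the same start, which end when they meet `v` -/
theorem chain_eq2 {V : Type} {G : V → V → Prop} (hG : ∀ x y z, G x y → G x z → y = z) (v : V) :
    ∀ (l l' : List V) (p : V), (p :: (l ++ [v])).IsChain G → (p :: (l' ++ [v])).IsChain G →
      v ∉ l → v ∉ l' → l = l' := by
  intro l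
  induction l with
  | nil =>
    intro l' p h1 h2 h3 h4
    cases l' with
    | nil => rfl
    | cons t T =>
      exfalso
      rw [List.cons_append, List.isChain_cons_cons] at h2
      rw [List.nil_append, List.isChain_cons_cons] at h1
      exact h4 (by simp [hG _ _ _ h1.1 h2.1])
  | cons r R ih =>
    intro l' p h1 h2 h3 h4
    cases l' with
    | nil =>
      exfalso
      rw [List.cons_append, List.isChain_cons_cons] at h1
      rw [List.nil_append, List.isChain_cons_cons] at h2
      exact h3 (by simp [hG _ _ _ h2.1 h1.1])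
    | cons t T =>
      rw [List.cons_append, List.isChain_cons_cons] at h1 h2
      have h6 := hG _ _ _ h1.1 h2.1
      subst h6
      rw [ih T r h1.2 h2.2 (fun h => h3 (List.mem_cons_of_mem _ h))
        (fun h => h4 (List.mem_cons_of_mem _ h))]

/-- **CLO** -/
theorem clo : CloStmt := by
  intro V _ a b c E F K C₁ C₂ h z hz hr w hw
  have haC : a ∈ C₁ := List.mem_of_head? h.n1.hd
  have hbC : b ∈ C₁ := List.mem_of_getLast? h.n1.ls
  obtain ⟨v, hv⟩ := hr
  have hzc : z ∉ K ∪ {c} := hv.2.1
  have hz' : z ∉ [a, c, b] := by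
    intro hm
    simp only [List.mem_cons, List.not_mem_nil, or_false] at hm
    rcases hm with e | e | e
    · exact hz (e ▸ haC)
    · exact hzc (Or.inr e)
    · exact hz (e ▸ hbC)
  obtain ⟨l, h1, h2, h3⟩ := h.n1.int z v hz hv
  obtain ⟨l', h1', h2', h3'⟩ := h.nt.int z v hz' hv.1
  have e : l = l' := by
    refine chain_eq2 (G := F z) (h.nt.fn z) v l l' v (h1.imp fun x y hxy => hxy.1) h1' ?_ ?_
    · exact (List.nodup_cons.1 h2).1
    · exact (List.nodup_cons.1 h2').1
  subst e
  exact ((h3 w).2 ((h3' w).1 hw)).2.2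

end Pool.Agent.SGD.H59
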