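import Pool.Agent.SGD.Stmts
import Pool.Agent.Helper56_SGP.CTR

/-!
# Squad SGD, row SGN
-/

noncomputable section

namespace Pool.Agent.SGD.H59

open Pool.Agent.SGE Pool.Agent.SGP Pool.Agent.SGY Pool.Agent.SGD

theorem o_rot3 (p q r : ℝ × ℝ) : o p q r = o q r p := by unfold o; ring

/-- **SGN** -/
theorem sgn : SgnStmt := by
  intro V _ a b c E E₁ E₂ F F₁ F₂ K k₁ k₂ D₁ D₂ f₁ f₂ g π₁ π₂ N H Y1 Y2 hg
  have hnd := N.nd
  simp only [List.nodup_cons, List.mem_cons, List.not_mem_nil, not_or,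
    or_false, not_false_eq_true, and_true, List.nodup_nil] at hnd
  obtain ⟨⟨hac, hab⟩, hcb⟩ := hnd
  have ra : Rel E a := Pool.Agent.SGP.H56.contour_nb N (by simp)
  have rb : Rel E b := Pool.Agent.SGP.H56.contour_nb N (by simp)
  have rc : Rel E c := Pool.Agent.SGP.H56.contour_nb N (by simp)
  have aK : a ∉ K := fun h => (H.sub h).1 rfl
  have bK : b ∉ K := fun h => (H.sub h).2.1 rfl
  have cK : c ∉ K := fun h => (H.sub h).2.2.1 rfl
  have aP : a ∉ K ∪ {c} := by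
    rintro (h | h)
    · exact aK h
    · exact hac h
  have bP : b ∉ K ∪ {c} := by
    rintro (h | h)
    · exact bK h
    · exact hcb h.symm
  have cP : c ∈ K ∪ {c} := Or.inr rfl
  have KP : ∀ x, x ∈ K → x ∈ K ∪ {c} := fun x h => Or.inl h
  have nP : ∀ x, x ∉ K → x ≠ c → x ∉ K ∪ {c} := by
    rintro x h1 h2 (h | h)
    · exact h1 h
    · exact h2 h
  have t1P : ∀ x, x ∈ K ∪ {c} → th1 c K x = c := by
    rintro x (h | h)
    · simp [th1, h]
    · rw [Set.mem_singleton_iff] at h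
      simp [th1, h]
  have t1n : ∀ x, x ∉ K ∪ {c} → th1 c K x = x := by
    intro x h
    have h1 : x ∉ K := fun h' => h (Or.inl h')
    simp [th1, h1]
  have t2P : ∀ x, x ∈ K ∪ {c} → th2 a b c K x = x := by
    rintro x (h | h)
    · simp [th2, h]
    · rw [Set.mem_singleton_iff] at h
      simp [th2, h]
  have t2a : th2 a b c K a = a := by simp [th2]
  have t2n : ∀ x, x ∉ K ∪ {c} → x ≠ a → th2 a b c K x = b := by
    intro x h h'
    have h1 : x ∉ K := fun h' => h (Or.inl h')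
    have h2 : x ≠ c := fun h' => h (Or.inr h')
    simp [th2, h1, h2, h']
  have R1 : ∀ x y z, Rel E x → Rel E y → Rel E z → ¬ Two (K ∪ {c}) x y z →
      0 < o (f₁ (th1 c K x)) (f₁ (th1 c K y)) (f₁ (th1 c K z)) → 0 < o (g x) (g y) (g z) :=
    fun x y z h1 h2 h3 => (hg x y z h1 h2 h3).1
  have R2 : ∀ x y z, Rel E x → Rel E y → Rel E z → Two (K ∪ {c}) x y z →
      0 < o (f₂ (th2 a b c K x)) (f₂ (th2 a b c K y)) (f₂ (th2 a b c K z)) →
      0 < o (g x) (g y) (g z) :=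
    fun x y z h1 h2 h3 => (hg x y z h1 h2 h3).2
  -- the positions
  have X0 : ps a b k₁ π₁ 0 = b := by simp [ps]
  have Xk : ps a b k₁ π₁ (k₁ + 1) = a := by simp [ps]
  have Xm : ∀ i, 1 ≤ i → i ≤ k₁ → ps a b k₁ π₁ i = π₁ i := by
    intro i h1 h2
    simp only [ps]
    rw [if_neg (by omega), if_pos h2]
  have Z0 : ps c a k₂ π₂ 0 = a := by simp [ps]
  have Zk : ps c a k₂ π₂ (k₂ + 1) = c := by simp [ps]
  have Zm : ∀ i, 1 ≤ i → i ≤ k₂ → ps c a k₂ π₂ i = π₂ i := by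
    intro i h1 h2
    simp only [ps]
    rw [if_neg (by omega), if_pos h2]
  -- first chain
  have xa : ∀ i, i ≤ k₁ → ps a b k₁ π₁ i ≠ a ∧ ps a b k₁ π₁ i ∉ K ∪ {c} ∧
      Rel E (ps a b k₁ π₁ i) := by
    intro i hi
    rcases Nat.eq_zero_or_pos i with h0 | h0
    · rw [h0, X0]
      exact ⟨Ne.symm hab, bP, rb⟩
    · rw [Xm i h0 hi]
      have := Y1.pin i h0 hi
      rw [H.inn1] at this
      exact ⟨this.1.1, nP _ this.2 this.1.2.2.1, this.1.2.2.2⟩
  have xn : ∀ i, i ≤ k₁ + 1 → ps a b k₁ π₁ i ∉ K ∪ {c} ∧ Rel E (ps a b k₁ π₁ i) := by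
    intro i hi
    by_cases h : i ≤ k₁
    · exact (xa i h).2
    · obtain rfl : i = k₁ + 1 := by omega
      rw [Xk]
      exact ⟨aP, ra⟩
  -- second chain
  have ya : ∀ j, 1 ≤ j → j ≤ k₂ + 1 → ps c a k₂ π₂ j ∈ K ∪ {c} ∧ Rel E (ps c a k₂ π₂ j) := by
    intro j h1 hj
    by_cases h : j ≤ k₂
    · rw [Zm j h1 h]
      have := Y2.pin j h1 h
      rw [H.inn2] at this
      exact ⟨KP _ this, (H.sub this).2.2.2⟩
    · obtain rfl : j = k₂ + 1 := by omega
      rw [Zk]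
      exact ⟨cP, rc⟩
  have yn : ∀ j, j ≤ k₂ + 1 → th2 a b c K (ps c a k₂ π₂ j) = ps c a k₂ π₂ j ∧
      Rel E (ps c a k₂ π₂ j) := by
    intro j hj
    rcases Nat.eq_zero_or_pos j with h0 | h0
    · rw [h0, Z0]
      exact ⟨t2a, ra⟩
    · exact ⟨t2P _ (ya j h0 hj).1, (ya j h0 hj).2⟩
  refine ⟨?_, ?_, ?_, ?_, ?_⟩
  · show g (ps a b k₁ π₁ (k₁ + 1)) = g (ps c a k₂ π₂ 0)
    rw [Xk, Z0]
  · intro i j l hij hj hl1 hl
    refine R1 _ _ _ (ya l hl1 hl).2 (xn j hj).2 (xn i (by omega)).2 ?_ ?_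
    · rintro (h | h | h)
      · exact (xn j hj).1 h.2
      · exact (xn j hj).1 h.1
      · exact (xn i (by omega)).1 h.1
    · rw [t1P _ (ya l hl1 hl).1, t1n _ (xn j hj).1, t1n _ (xn i (by omega)).1]
      exact Y1.rad i j hij hj
  · intro i j l hij hj hl
    rcases Nat.eq_zero_or_pos i with h0 | h0
    · rw [h0]
      show 0 < o (g (ps a b k₁ π₁ l)) (g (ps c a k₂ π₂ j)) (g (ps c a k₂ π₂ 0))
      rw [Z0]
      refine R1 _ _ _ (xa l hl).2.2 (ya j (by omega) hj).2 ra ?_ ?_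
      · rintro (h | h | h)
        · exact (xa l hl).2.1 h.1
        · exact aP h.2
        · exact aP h.1
      · rw [t1n _ (xa l hl).2.1, t1P _ (ya j (by omega) hj).1, t1n _ aP, o_rot3]
        have := Y1.rad l (k₁ + 1) (by omega) le_rfl
        rw [Xk] at this
        exact this
    · refine R2 _ _ _ (xa l hl).2.2 (ya j (by omega) hj).2 (ya i h0 (by omega)).2
        (Or.inr (Or.inl ⟨(ya j (by omega) hj).1, (ya i h0 (by omega)).1⟩)) ?_
      rw [t2n _ (xa l hl).2.1 (xa l hl).1, t2P _ (ya j (by omega) hj).1,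
        t2P _ (ya i h0 (by omega)).1]
      exact Y2.rad i j hij hj
  · intro i l j hil hlj hj hE
    refine R1 _ _ _ (xn j hj).2 (xn i (by omega)).2 (xn l (by omega)).2 ?_ ?_
    · rintro (h | h | h)
      · exact (xn j hj).1 h.1
      · exact (xn i (by omega)).1 h.1
      · exact (xn j hj).1 h.2
    · rw [t1n _ (xn j hj).1, t1n _ (xn i (by omega)).1, t1n _ (xn l (by omega)).1]
      exact Y1.low i l j hil hlj hj hE
  · intro i l j hil hlj hj hE
    refine R2 _ _ _ (yn j hj).2 (yn i (by omega)).2 (yn l (by omega)).2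
      (Or.inr (Or.inr ⟨(ya l (by omega) (by omega)).1, (ya j (by omega) hj).1⟩)) ?_
    rw [(yn j hj).1, (yn i (by omega)).1, (yn l (by omega)).1]
    exact Y2.low i l j hil hlj hj hE

end Pool.Agent.SGD.H59
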