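import Pool.Agent.Helper65_SGD.ASM
import Pool.Agent.Helper7_SGD.FIN
import Pool.Agent.Helper27_SGD.SIZ
import Pool.Agent.Helper23_SGD.RLZ
import Pool.Agent.Helper92_SGD.TRK
import Pool.Agent.Helper3_SGD.NX2
import Pool.Agent.Helper70_SGD.GNZ
import Pool.Agent.Helper67_SGD.NSP
import Pool.Agent.Helper10_SGD.CTF
import Pool.Agent.Helper49_SGD.EXG
import Pool.Agent.Helper95_SGD.STP
import Pool.Agent.Helper97_SGD.INI
import Pool.Agent.Helper40_SGD.ARC
import Pool.Agent.Helper5_SGD.BN2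
import Pool.Agent.Helper77_SGD.BND
import Pool.Agent.Helper70_SGD.SUB
import Pool.Agent.Helper34_SGD.CCR
import Pool.Agent.Helper66_SGD.DP2
import Pool.Agent.Helper91_SGD.SRN
import Pool.Agent.Helper77_SGD.CSG
import Pool.Agent.Helper59_SGD.CLO
import Pool.Agent.Helper59_SGD.SGN

/-!
# Squad SGD: assembly
-/

noncomputable section

namespace Pool.Agent.SGD.H59

open Pool.Agent.SGE Pool.Agent.SGP Pool.Agent.SGY Pool.Agent.SGD

theorem siz : SizStmt :=
  H27.siz (H49.exg clo H40.arc) (H95.stp H77.bnd H70.sub H40.arc) H97.ini (H10.ctf H77.bnd H5.bn2)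

theorem fin_all : FinStmt :=
  H7.fin_ (H23.rlz H34.ccr H70.gnz) H67.nsp (H92.trk H66.dp2 H91.srn)
    (H65.asm siz H77.csg sgn) H3.nx2 H70.gnz

end Pool.Agent.SGD.H59
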